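import Pool.Agent.U133.OC.Trans

set_option autoImplicit false
set_option linter.unusedSectionVars false

/-!
Decompositions of the arcs of graphs with a group of automorphisms into directed cycles.
-/

namespace Pool.Agent.U133.OC

open Finset Pool.Agent.TH505.OCDC Pool.Agent.R759.OC

section Map

variable {V' V : Type} {G' : SimpleGraph V'} {G : SimpleGraph V} (f : G' →g G)

open scoped Classical in
lemma dc_map (hf : Function.Injective f) {x y : V'} (p : G'.Walk x y) (u v : V') :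
    dc (p.map f) (f u) (f v) = dc p u v := by
  induction p with
  | nil => rw [SimpleGraph.Walk.map_nil, dc_nil, dc_nil]
  | cons h p ih =>
    rw [SimpleGraph.Walk.map_cons, dc_cons, dc_cons, ih]
    simp only [hf.eq_iff]

open scoped Classical in
lemma dc_map_out {x y : V'} (p : G'.Walk x y) (a b : V) (h : ¬ ∃ u v, f u = a ∧ f v = b) :
    dc (p.map f) a b = 0 := by
  induction p with
  | nil => rw [SimpleGraph.Walk.map_nil, dc_nil]
  | @cons x y z h' p ih =>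
    rw [SimpleGraph.Walk.map_cons, dc_cons, ih, if_neg]
    rintro ⟨h1, h2⟩
    exact h ⟨x, y, h1, h2⟩

lemma tot_map (hf : Function.Injective f) (C : List (Σ v : V', G'.Walk v v)) (u v : V') :
    tot (C.map (fun c => (⟨f c.1, c.2.map f⟩ : Σ v : V, G.Walk v v))) (f u) (f v) =
      tot C u v := by
  induction C with
  | nil => rfl
  | cons c C ih =>
    rw [List.map_cons, tot_cons, tot_cons, ih]
    congr 1
    exact dc_map f hf c.2 u v

lemma tot_map_out (C : List (Σ v : V', G'.Walk v v)) (a b : V)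
    (h : ¬ ∃ u v, f u = a ∧ f v = b) :
    tot (C.map (fun c => (⟨f c.1, c.2.map f⟩ : Σ v : V, G.Walk v v))) a b = 0 := by
  induction C with
  | nil => rfl
  | cons c C ih =>
    rw [List.map_cons, tot_cons, ih]
    exact dc_map_out f c.2 a b h

lemma dec_map (hf : Function.Injective f) {R : V' → V' → Prop} (h : Dec G' R) :
    Dec G (fun a b => ∃ u v, f u = a ∧ f v = b ∧ R u v) := by
  obtain ⟨C, hC, hC'⟩ := h
  refine ⟨C.map (fun c => ⟨f c.1, c.2.map f⟩), ?_, ?_⟩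
  · intro c hc
    obtain ⟨c', hc', rfl⟩ := List.mem_map.1 hc
    exact (SimpleGraph.Walk.isCycle_map_iff_of_injective hf).2 (hC c' hc')
  · intro a b
    by_cases hab : ∃ u v, f u = a ∧ f v = b
    · obtain ⟨u, v, rfl, rfl⟩ := hab
      rw [tot_map f hf, hC' u v]
      congr 1
      apply propext
      constructor
      · intro h
        exact ⟨u, v, rfl, rfl, h⟩
      · rintro ⟨u', v', h1, h2, h3⟩
        rwa [hf h1, hf h2] at h3
    · rw [tot_map_out f C a b hab, ind_neg]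
      rintro ⟨u, v, h1, h2, _⟩
      exact hab ⟨u, v, h1, h2⟩

end Map

section Orbits

variable {V : Type} [Fintype V] {G : SimpleGraph V} (B : Subgroup (Equiv.Perm V))

/-- the orbit equivalence -/
def orb : Setoid V where
  r x y := ∃ b ∈ B, b x = y
  iseqv := by
    refine ⟨fun x => ⟨1, B.one_mem, rfl⟩, ?_, ?_⟩
    · rintro x y ⟨b, hb, rfl⟩
      exact ⟨b⁻¹, B.inv_mem hb, pinv b x⟩
    · rintro x y z ⟨b, hb, rfl⟩ ⟨c, hc, rfl⟩
      exact ⟨c * b, B.mul_mem hc hb, rfl⟩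

omit [Fintype V] in
lemma orb_iff {x y : V} : (orb B).r x y ↔ ∃ b ∈ B, b x = y := Iff.rfl

lemma deg_ncard (R : V → V → Prop) (v : V) : ∑ w, ind (R v w) = {w | R v w}.ncard := by
  classical
  have h1 : ∑ w, ind (R v w) = (univ.filter (fun w => R v w)).card := by
    rw [Finset.card_filter]
    refine Finset.sum_congr rfl fun w _ => ?_
    unfold ind
    split_ifs <;> rfl
  rw [h1, Set.ncard_eq_toFinset_card']
  congr 1
  ext w
  simp

/-- the edges inside one orbit -/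
theorem dec_orbit (hB : Inv B G.Adj) (x₀ : V)
    (hst : Even {y | G.Adj x₀ y ∧ ∃ c ∈ B, c x₀ = y}.ncard ∨
      ∀ b ∈ B, ∀ x y, (∃ c ∈ B, c x₀ = x) → G.Adj x y →
        (∃ r ∈ B, r x = y ∧ r y = x) → b x = x → b y = y → ∀ z, (∃ c ∈ B, c x₀ = z) → b z = z)
    (hdeg : {y | G.Adj x₀ y ∧ ∃ c ∈ B, c x₀ = y}.ncard ≠ 1) :
    Dec G (fun u v => G.Adj u v ∧ (∃ b ∈ B, b x₀ = u) ∧ (∃ b ∈ B, b x₀ = v)) := by
  classical
  have hmem : ∀ b ∈ B, ∀ v, (∃ c ∈ B, c x₀ = v) ↔ (∃ c ∈ B, c x₀ = b v) := by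
    intro b hb v
    constructor
    · rintro ⟨c, hc, rfl⟩
      exact ⟨b * c, B.mul_mem hb hc, rfl⟩
    · rintro ⟨c, hc, h⟩
      exact ⟨b⁻¹ * c, B.mul_mem (B.inv_mem hb) hc, by rw [Equiv.Perm.mul_apply, h, pinv]⟩
  -- all vertices of the orbit have the same inner degree
  have hinvR : Inv B (fun u v => G.Adj u v ∧ (∃ b ∈ B, b x₀ = u) ∧ (∃ b ∈ B, b x₀ = v)) := by
    rintro b hb u v ⟨h1, h2, h3⟩
    exact ⟨hB b hb u v h1, (hmem b hb u).1 h2, (hmem b hb v).1 h3⟩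
  have hx0 : {v | G.Adj x₀ v ∧ (∃ b ∈ B, b x₀ = x₀) ∧ (∃ b ∈ B, b x₀ = v)} =
      {y | G.Adj x₀ y ∧ ∃ c ∈ B, c x₀ = y} := by
    ext y
    constructor
    · rintro ⟨h1, _, h2⟩
      exact ⟨h1, h2⟩
    · rintro ⟨h1, h2⟩
      exact ⟨h1, ⟨1, B.one_mem, rfl⟩, h2⟩
  have hdg : ∀ u, (∃ b ∈ B, b x₀ = u) →
      ∑ w, ind (G.Adj u w ∧ (∃ b ∈ B, b x₀ = u) ∧ (∃ b ∈ B, b x₀ = w)) =
        {y | G.Adj x₀ y ∧ ∃ c ∈ B, c x₀ = y}.ncard := by
    rintro u ⟨b, hb, rfl⟩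
    rw [hinvR.out B hb x₀, deg_ncard
      (fun u v => G.Adj u v ∧ (∃ b ∈ B, b x₀ = u) ∧ (∃ b ∈ B, b x₀ = v)) x₀, hx0]
  rcases hst with hev | hst
  · refine Dec.of_even (fun u v h => h.1) (fun u v h => ⟨h.1.symm, h.2.2, h.2.1⟩) ?_
    intro v
    by_cases hv : ∃ b ∈ B, b x₀ = v
    · rw [hdg v hv]
      exact hev
    · rw [Finset.sum_eq_zero]
      · exact Even.zero
      · intro w _
        exact ind_neg (fun h => hv h.2.1)
  let O : Set V := {v | ∃ b ∈ B, b x₀ = v}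
  let H : SimpleGraph O := G.comap (fun v : O => (v : V))
  -- the restriction to the orbit
  let ρ : B →* Equiv.Perm O :=
    { toFun := fun b => (b : Equiv.Perm V).subtypePerm (fun v => (hmem b b.2 v).symm)
      map_one' := by
        ext v
        rfl
      map_mul' := by
        intro a b
        ext v
        rfl }
  have hρ : ∀ (b : B) (v : O), ((ρ b v : O) : V) = (b : Equiv.Perm V) v := fun b v => rfl
  have hdec : Dec H H.Adj := by
    refine dec_trans (G := H) ρ.range ?_ ?_ ?_ ?_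
    · rintro _ ⟨b, rfl⟩ u v huv
      exact hB b b.2 u v huv
    · rintro ⟨x, b, hb, hbx⟩ ⟨y, c, hc, hcy⟩
      refine ⟨ρ (⟨c, hc⟩ * (⟨b, hb⟩ : B)⁻¹), ⟨_, rfl⟩, ?_⟩
      apply Subtype.ext
      show (c * b⁻¹ : Equiv.Perm V) x = y
      rw [Equiv.Perm.mul_apply, ← hbx, pinv, hcy]
    · rintro _ ⟨b, rfl⟩ ⟨x, hx⟩ ⟨y, hy⟩ hxy ⟨_, ⟨r, rfl⟩, h1, h2⟩ h3 h4
      have e1 : (r : Equiv.Perm V) x = y := congrArg Subtype.val h1
      have e2 : (r : Equiv.Perm V) y = x := congrArg Subtype.val h2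
      have e3 : (b : Equiv.Perm V) x = x := congrArg Subtype.val h3
      have e4 : (b : Equiv.Perm V) y = y := congrArg Subtype.val h4
      have := hst b b.2 x y hx hxy ⟨r, r.2, e1, e2⟩ e3 e4
      ext z
      exact this z z.2
    · rintro ⟨x, hx⟩ ⟨y, hy⟩ hxy
      by_contra hcon
      push Not at hcon
      apply hdeg
      rw [← hdg x hx, deg_ncard
        (fun u v => G.Adj u v ∧ (∃ b ∈ B, b x₀ = u) ∧ (∃ b ∈ B, b x₀ = v)) x,
        Set.ncard_eq_one]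
      refine ⟨y, ?_⟩
      ext z
      constructor
      · rintro ⟨h1, _, h3⟩
        by_contra hz
        exact hcon ⟨z, h3⟩ (fun h => hz (congrArg Subtype.val h)) h1
      · intro hz
        rw [Set.mem_singleton_iff] at hz
        rw [hz]
        exact ⟨hxy, hx, hy⟩
  let f : H →g G := ⟨fun v : O => (v : V), fun h => h⟩
  refine Dec.congr ?_ (dec_map f Subtype.val_injective hdec)
  intro u v
  constructor
  · rintro ⟨a, b, rfl, rfl, h⟩
    exact ⟨h, a.2, b.2⟩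
  · rintro ⟨h, h1, h2⟩
    exact ⟨⟨u, h1⟩, ⟨v, h2⟩, rfl, rfl, h⟩

/-- the main theorem -/
theorem dec_main (hB : Inv B G.Adj)
    (hout : ∀ x, Even {y | G.Adj x y ∧ ¬ ∃ c ∈ B, c x = y}.ncard)
    (hst : ∀ x₀, Odd {y | G.Adj x₀ y ∧ ∃ c ∈ B, c x₀ = y}.ncard →
      ∀ b ∈ B, ∀ y, G.Adj x₀ y →
        (∃ r ∈ B, r x₀ = y ∧ r y = x₀) → b x₀ = x₀ → b y = y → ∀ z, (∃ c ∈ B, c x₀ = z) → b z = z)
    (hdeg : ∀ x₀, {y | G.Adj x₀ y ∧ ∃ c ∈ B, c x₀ = y}.ncard ≠ 1) : Dec G G.Adj := by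
  classical
  have hsame : ∀ x₀ x y, (∃ c ∈ B, c x₀ = x) → ((∃ c ∈ B, c x = y) ↔ (∃ c ∈ B, c x₀ = y)) := by
    rintro x₀ x y ⟨c, hc, rfl⟩
    constructor
    · rintro ⟨d, hd, rfl⟩
      exact ⟨d * c, B.mul_mem hd hc, rfl⟩
    · rintro ⟨d, hd, rfl⟩
      exact ⟨d * c⁻¹, B.mul_mem hd (B.inv_mem hc), by rw [Equiv.Perm.mul_apply, pinv]⟩
  -- the outer edges
  have d1 : Dec G (fun u v => G.Adj u v ∧ ¬ ∃ c ∈ B, c u = v) := by
    refine Dec.of_even (fun u v h => h.1) ?_ ?_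
    · rintro u v ⟨h1, h2⟩
      refine ⟨h1.symm, ?_⟩
      rintro ⟨c, hc, h⟩
      exact h2 ⟨c⁻¹, B.inv_mem hc, by rw [← h, pinv]⟩
    · intro v
      rw [deg_ncard (fun u v => G.Adj u v ∧ ¬ ∃ c ∈ B, c u = v) v]
      exact hout v
  -- the inner edges
  have hcards : ∀ x₀ x, (∃ c ∈ B, c x₀ = x) → {y | G.Adj x y ∧ ∃ c ∈ B, c x = y}.ncard =
      {y | G.Adj x₀ y ∧ ∃ c ∈ B, c x₀ = y}.ncard := by
    rintro x₀ _ ⟨c, hc, rfl⟩
    symm
    refine Set.ncard_congr (fun y _ => c y) ?_ ?_ ?_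
    · rintro y ⟨h1, d, hd, rfl⟩
      exact ⟨hB c hc _ _ h1, c * d * c⁻¹, B.mul_mem (B.mul_mem hc hd) (B.inv_mem hc), by
        rw [Equiv.Perm.mul_apply, Equiv.Perm.mul_apply, pinv]⟩
    · intro a b _ _ h
      exact c.injective h
    · rintro y ⟨h1, d, hd, rfl⟩
      refine ⟨c⁻¹ (d (c x₀)), ⟨?_, c⁻¹ * d * c, B.mul_mem (B.mul_mem (B.inv_mem hc) hd) hc, rfl⟩,
        papp c _⟩
      have := hB c⁻¹ (B.inv_mem hc) _ _ h1
      rwa [pinv] at this
  have d2 : ∀ x₀, Dec G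
      (fun u v => G.Adj u v ∧ (∃ b ∈ B, b x₀ = u) ∧ (∃ b ∈ B, b x₀ = v)) := by
    intro x₀
    refine dec_orbit B hB x₀ ?_ (hdeg x₀)
    by_cases hev : Even {y | G.Adj x₀ y ∧ ∃ c ∈ B, c x₀ = y}.ncard
    · exact Or.inl hev
    · refine Or.inr ?_
      intro b hb x y hx hxy hr h1 h2 z hz
      refine hst x ?_ b hb y hxy hr h1 h2 z ((hsame x₀ x z hx).2 hz)
      rw [hcards x₀ x hx]
      exact Nat.not_even_iff_odd.1 hev
  let J : Type := {R : V → V → Prop // ∃ x₀, R = fun u v =>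
    G.Adj u v ∧ (∃ b ∈ B, b x₀ = u) ∧ (∃ b ∈ B, b x₀ = v)}
  have : Finite J := Subtype.finite
  have d3 : Dec G (fun u v => ∃ j : J, j.1 u v) := by
    refine Dec.iUnion (J := J) (fun j => j.1) ?_ ?_
    · rintro ⟨R, x₀, rfl⟩
      exact d2 x₀
    · rintro ⟨R, x₀, rfl⟩ ⟨R', x₁, rfl⟩ u v h h'
      apply Subtype.ext
      have h1 : ∀ w, (∃ b ∈ B, b x₀ = w) ↔ (∃ b ∈ B, b x₁ = w) := by
        intro w
        rw [← hsame x₀ u w h.2.1, ← hsame x₁ u w h'.2.1]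
      funext p q
      apply propext
      show (G.Adj p q ∧ (∃ b ∈ B, b x₀ = p) ∧ (∃ b ∈ B, b x₀ = q)) ↔
        (G.Adj p q ∧ (∃ b ∈ B, b x₁ = p) ∧ (∃ b ∈ B, b x₁ = q))
      rw [h1 p, h1 q]
  refine Dec.congr ?_ (d1.union d3 ?_)
  · intro u v
    constructor
    · rintro (h | ⟨⟨R, x₀, rfl⟩, h⟩)
      · exact h.1
      · exact h.1
    · intro h
      by_cases huv : ∃ c ∈ B, c u = v
      · exact Or.inr ⟨⟨_, u, rfl⟩, h, ⟨1, B.one_mem, rfl⟩, huv⟩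
      · exact Or.inl ⟨h, huv⟩
  · rintro u v ⟨_, h⟩ ⟨⟨R, x₀, rfl⟩, _, h1, h2⟩
    exact h ((hsame x₀ u v h1).2 h2)

end Orbits

end Pool.Agent.U133.OC
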