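import Pool.Agent.R759.OCGroup

set_option autoImplicit false
set_option linter.unusedSectionVars false

/-!
Decompositions of the arcs of vertex-transitive graphs into directed cycles.
-/

namespace Pool.Agent.U133.OC

open Finset Pool.Agent.TH505.OCDC Pool.Agent.R759.OC

section Regular

variable {V : Type} [Fintype V] {G : SimpleGraph V}
variable {Γ : Type} [Group Γ] [Finite Γ] (e : Γ ≃ V)

/-- the arcs given by right multiplication by the elements of `T` -/
def RS (T : Finset Γ) : V → V → Prop := fun u v => ∃ b : Γ, ∃ s ∈ T, e b = u ∧ e (b * s) = v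

omit [Fintype V] [Finite Γ] in
lemma RS_inj {b b' s s' : Γ} (h : e b = e b') (h' : e (b * s) = e (b' * s')) : s = s' := by
  have h1 : b = b' := e.injective h
  have h2 := e.injective h'
  rw [h1] at h2
  exact mul_left_cancel h2

omit [Fintype V] [Finite Γ] in
lemma RS_disj {T T' : Finset Γ} (hd : ∀ s ∈ T, s ∉ T') (u v : V) (h : RS e T u v) :
    ¬ RS e T' u v := by
  rintro ⟨b', s', hs', h1', h2'⟩
  obtain ⟨b, s, hs, h1, h2⟩ := h
  have := RS_inj e (h1.trans h1'.symm) (h2.trans h2'.symm)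
  exact hd s hs (this ▸ hs')

lemma RS_deg (T : Finset Γ) (v : V) : ∑ w, ind (RS e T v w) = T.card := by
  classical
  have h1 : ∑ w, ind (RS e T v w) = (univ.filter (fun w => RS e T v w)).card := by
    rw [Finset.card_filter]
    refine Finset.sum_congr rfl fun w _ => ?_
    unfold ind
    split_ifs <;> rfl
  rw [h1]
  symm
  refine Finset.card_bij (fun s _ => e (e.symm v * s)) ?_ ?_ ?_
  · intro s hs
    rw [mem_filter]
    exact ⟨mem_univ _, e.symm v, s, hs, e.apply_symm_apply v, rfl⟩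
  · intro s _ s' _ h
    exact mul_left_cancel (e.injective h)
  · intro w hw
    rw [mem_filter] at hw
    obtain ⟨_, b, s, hs, h1, h2⟩ := hw
    refine ⟨s, hs, ?_⟩
    rw [← h1, e.symm_apply_apply]
    exact h2

omit [Fintype V] [Finite Γ] in
lemma RS_symm {T : Finset Γ} (hT : ∀ s ∈ T, s⁻¹ ∈ T) (u v : V) (h : RS e T u v) : RS e T v u := by
  obtain ⟨b, s, hs, h1, h2⟩ := h
  exact ⟨b * s, s⁻¹, hT s hs, h2, by rw [mul_inv_cancel_right]; exact h1⟩

lemma RS_even {T : Finset Γ} (hadj : ∀ s ∈ T, ∀ b, G.Adj (e b) (e (b * s)))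
    (hT : ∀ s ∈ T, s⁻¹ ∈ T) (hc : Even T.card) : Dec G (RS e T) := by
  refine Dec.of_even ?_ (RS_symm e hT) (fun v => by rw [RS_deg]; exact hc)
  rintro u v ⟨b, s, hs, rfl, rfl⟩
  exact hadj s hs b

/-- a finite set without fixed points of the inversion has an even number of elements -/
lemma even_of_no_inv (S : Finset Γ) (hS : ∀ s ∈ S, s⁻¹ ∈ S) (h : ∀ s ∈ S, s⁻¹ ≠ s) :
    Even S.card := by
  have h1 : ∑ s ∈ S, (1 : ZMod 2) = 0 := by
    refine Finset.sum_involution (fun s _ => s⁻¹) (fun s _ => by decide) (fun s hs _ => h s hs)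
      (fun s hs => hS s hs) (fun s _ => inv_inv s)
  rw [Finset.sum_const, nsmul_eq_mul, mul_one] at h1
  exact (ZMod.natCast_eq_zero_iff_even).1 h1

/-- Cayley graphs, in coordinates -/
theorem dec_cayley (S : Finset Γ) (hadj : ∀ s ∈ S, ∀ b, G.Adj (e b) (e (b * s)))
    (hS : ∀ s ∈ S, s⁻¹ ∈ S) (hc : S.card ≠ 1) : Dec G (RS e S) := by
  classical
  by_cases hev : Even S.card
  · exact RS_even e hadj hS hev
  have h1S : ∀ s ∈ S, s ≠ 1 := by
    rintro s hs rfl
    have := hadj 1 hs 1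
    rw [mul_one] at this
    exact this.ne rfl
  obtain ⟨a, ha, haa⟩ : ∃ a ∈ S, a⁻¹ = a := by
    by_contra hcon
    push Not at hcon
    exact hev (even_of_no_inv S hS hcon)
  have haa' : a * a = 1 := by
    calc a * a = a⁻¹ * a := by rw [haa]
    _ = 1 := inv_mul_cancel a
  have hodd : Odd S.card := Nat.not_even_iff_odd.1 hev
  have hdisj : ∀ T : Finset Γ, ∀ s ∈ T, s ∉ S \ T := by
    intro T s hs h
    exact (mem_sdiff.1 h).2 hs
  have hun : ∀ T : Finset Γ, T ⊆ S → ∀ u v, (RS e T u v ∨ RS e (S \ T) u v) ↔ RS e S u v := by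
    intro T hT u v
    constructor
    · rintro (⟨b, s, hs, h⟩ | ⟨b, s, hs, h⟩)
      · exact ⟨b, s, hT hs, h⟩
      · exact ⟨b, s, (mem_sdiff.1 hs).1, h⟩
    · rintro ⟨b, s, hs, h⟩
      by_cases hsT : s ∈ T
      · exact Or.inl ⟨b, s, hsT, h⟩
      · exact Or.inr ⟨b, s, mem_sdiff.2 ⟨hs, hsT⟩, h⟩
  have hrest : ∀ T : Finset Γ, T ⊆ S → T.card = 3 → (∀ s ∈ T, s⁻¹ ∈ T) →
      Dec G (RS e T) → Dec G (RS e S) := by
    intro T hT h3 hTi hD
    refine Dec.congr (hun T hT) (hD.union (RS_even e (T := S \ T) ?_ ?_ ?_) ?_)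
    · intro s hs
      exact hadj s (mem_sdiff.1 hs).1
    · intro s hs
      refine mem_sdiff.2 ⟨hS s (mem_sdiff.1 hs).1, fun h => (mem_sdiff.1 hs).2 ?_⟩
      have := hTi _ h
      rwa [inv_inv] at this
    · rw [card_sdiff_of_subset hT, h3]
      obtain ⟨k, hk⟩ := hodd
      have h3' : 3 ≤ S.card := h3 ▸ card_le_card hT
      exact ⟨k - 1, by omega⟩
    · exact fun u v => RS_disj e (hdisj T) u v
  by_cases hinv : ∃ c ∈ S, c * c ≠ 1
  · obtain ⟨c, hcS, hcc⟩ := hinv
    have hac : a ≠ c := ne_of_sq haa' hcc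
    have hac' : a ≠ c⁻¹ := ne_of_sq haa' (inv_sq hcc)
    have hcn : c ≠ c⁻¹ := ne_inv_of_sq hcc
    refine hrest {a, c, c⁻¹} ?_ ?_ ?_ ?_
    · intro s hs
      simp only [mem_insert, mem_singleton] at hs
      rcases hs with rfl | rfl | rfl
      · exact ha
      · exact hcS
      · exact hS _ hcS
    · rw [card_eq_three]
      exact ⟨a, c, c⁻¹, hac, hac', hcn, rfl⟩
    · intro s hs
      simp only [mem_insert, mem_singleton] at hs ⊢
      rcases hs with rfl | rfl | rfl
      · exact Or.inl haa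
      · exact Or.inr (Or.inr rfl)
      · exact Or.inr (Or.inl (inv_inv _))
    · refine Dec.congr ?_ (cay e a c haa' hcc (h1S a ha) (hadj a ha) (hadj c hcS))
      intro u v
      constructor
      · rintro ⟨b, h1, h2 | h2 | h2⟩
        · exact ⟨b, a, by simp, h1, h2⟩
        · exact ⟨b, c, by simp, h1, h2⟩
        · exact ⟨b, c⁻¹, by simp, h1, h2⟩
      · rintro ⟨b, s, hs, h1, h2⟩
        simp only [mem_insert, mem_singleton] at hs
        rcases hs with rfl | rfl | rfl
        · exact ⟨b, h1, Or.inl h2⟩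
        · exact ⟨b, h1, Or.inr (Or.inl h2)⟩
        · exact ⟨b, h1, Or.inr (Or.inr h2)⟩
  · push Not at hinv
    have hself : ∀ s ∈ S, s⁻¹ = s := fun s hs => inv_eq_of_mul_eq_one_left (hinv s hs)
    obtain ⟨T, hT, hT3⟩ : ∃ T ⊆ S, T.card = 3 := by
      obtain ⟨k, hk⟩ := hodd
      exact exists_subset_card_eq (by omega)
    refine hrest T hT hT3 (fun s hs => by rw [hself s (hT hs)]; exact hs) ?_
    obtain ⟨x, y, z, hxy, hxz, hyz, rfl⟩ := card_eq_three.1 hT3
    have hx : x ∈ S := hT (by simp)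
    have hy : y ∈ S := hT (by simp)
    have hz : z ∈ S := hT (by simp)
    have hs1 : ∀ t ∈ S, ∀ s ∈ ({t} : Finset Γ), s⁻¹ ∈ ({t} : Finset Γ) := by
      intro t ht s hs
      rw [mem_singleton] at hs ⊢
      rw [hs, hself t ht]
    have ha1 : ∀ t ∈ S, ∀ u v, RS e {t} u v → G.Adj u v := by
      rintro t ht u v ⟨b, s, hs, rfl, rfl⟩
      rw [mem_singleton] at hs
      rw [hs]
      exact hadj t ht b
    have hd1 : ∀ s t : Γ, s ≠ t → ∀ u v, RS e {s} u v → ¬ RS e {t} u v := by
      intro s t hst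
      refine RS_disj e ?_
      intro r hr hr'
      rw [mem_singleton] at hr hr'
      exact hst (hr.symm.trans hr')
    have hev2 : ∀ s t : Γ, ∀ v, Even (∑ w, ind (RS e {s} v w) + ∑ w, ind (RS e {t} v w)) := by
      intro s t v
      rw [RS_deg, RS_deg, card_singleton, card_singleton]
      exact ⟨1, rfl⟩
    refine Dec.congr ?_ (Dec.of_three (ha1 x hx) (ha1 y hy) (ha1 z hz)
      (RS_symm e (hs1 x hx)) (RS_symm e (hs1 y hy)) (RS_symm e (hs1 z hz))
      (hd1 x y hxy) (hd1 x z hxz) (hd1 y z hyz) (hev2 x y) (hev2 x z) (hev2 y z))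
    intro u v
    constructor
    · rintro (⟨b, s, hs, h⟩ | ⟨b, s, hs, h⟩ | ⟨b, s, hs, h⟩) <;> rw [mem_singleton] at hs
      · exact ⟨b, s, by rw [hs]; simp, h⟩
      · exact ⟨b, s, by rw [hs]; simp, h⟩
      · exact ⟨b, s, by rw [hs]; simp, h⟩
    · rintro ⟨b, s, hs, h⟩
      simp only [mem_insert, mem_singleton] at hs
      rcases hs with rfl | rfl | rfl
      · exact Or.inl ⟨b, _, mem_singleton_self _, h⟩
      · exact Or.inr (Or.inl ⟨b, _, mem_singleton_self _, h⟩)
      · exact Or.inr (Or.inr ⟨b, _, mem_singleton_self _, h⟩)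

end Regular

section Transitive

variable {V : Type} [Fintype V] {G : SimpleGraph V} (B : Subgroup (Equiv.Perm V))

/-- Vertex-transitive groups of automorphisms in which only the identity fixes two adjacent
vertices which are exchanged by some element. -/
theorem dec_trans (hB : Inv B G.Adj) (htr : ∀ x y, ∃ b ∈ B, b x = y)
    (hst : ∀ b ∈ B, ∀ x y, G.Adj x y → (∃ r ∈ B, r x = y ∧ r y = x) →
      b x = x → b y = y → b = 1)
    (hdeg : ∀ x y, G.Adj x y → ∃ z, z ≠ y ∧ G.Adj x z) : Dec G G.Adj := by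
  classical
  by_cases hfix : ∃ b ∈ B, b ≠ 1 ∧ ∃ x, b x = x
  · obtain ⟨b₀, hb₀, hb₀1, x₀, hx₀⟩ := hfix
    have hfix' : ∀ y, ∃ c ∈ B, c ≠ 1 ∧ c y = y := by
      intro y
      obtain ⟨g, hg, rfl⟩ := htr x₀ y
      refine ⟨g * b₀ * g⁻¹, B.mul_mem (B.mul_mem hg hb₀) (B.inv_mem hg), ?_, ?_⟩
      · intro h
        apply hb₀1
        have h2 : g * b₀ = g := by
          calc g * b₀ = g * b₀ * g⁻¹ * g := by rw [inv_mul_cancel_right]
          _ = g := by rw [h, one_mul]
        exact mul_eq_left.1 h2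
      · rw [Equiv.Perm.mul_apply, Equiv.Perm.mul_apply, pinv, hx₀]
    have horb : ∀ x y, G.Adj x y → Dec G (Orb B x y) := by
      intro x y hxy
      by_cases hself : ∃ b ∈ B, b x = y ∧ b y = x
      · obtain ⟨r, hr, h1, h2⟩ := hself
        obtain ⟨c, hc, hc1, hcy⟩ := hfix' y
        refine dec_orb_shunt B hB hxy (fun b hb h h' => hst b hb x y hxy ⟨r, hr, h1, h2⟩ h h')
          (g := c * r) (B.mul_mem hc hr) ?_ ?_
        · rw [Equiv.Perm.mul_apply, h1, hcy]
        · rw [Equiv.Perm.mul_apply, h2]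
          intro h
          exact hc1 (hst c hc x y hxy ⟨r, hr, h1, h2⟩ h hcy)
      · exact dec_orb_nonself B htr hB hxy hself
    let J : Type := {R : V → V → Prop // ∃ x y, G.Adj x y ∧ R = Orb B x y}
    have : Finite J := Subtype.finite
    refine Dec.congr ?_ (Dec.iUnion (J := J) (fun j => j.1) ?_ ?_)
    · intro u v
      constructor
      · rintro ⟨⟨R, x, y, hxy, rfl⟩, b, hb, rfl, rfl⟩
        exact hB b hb _ _ hxy
      · intro h
        exact ⟨⟨Orb B u v, u, v, h, rfl⟩, 1, B.one_mem, rfl, rfl⟩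
    · rintro ⟨R, x, y, hxy, rfl⟩
      exact horb x y hxy
    · have key : ∀ x y u v, Orb B x y u v → Orb B x y = Orb B u v := by
        rintro x y u v ⟨b, hb, rfl, rfl⟩
        funext p q
        apply propext
        constructor
        · rintro ⟨c, hc, rfl, rfl⟩
          refine ⟨c * b⁻¹, B.mul_mem hc (B.inv_mem hb), ?_, ?_⟩
          · rw [Equiv.Perm.mul_apply, pinv]
          · rw [Equiv.Perm.mul_apply, pinv]
        · rintro ⟨c, hc, rfl, rfl⟩
          exact ⟨c * b, B.mul_mem hc hb, rfl, rfl⟩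
      rintro ⟨R, x, y, hxy, rfl⟩ ⟨R', x', y', hxy', rfl⟩ u v h h'
      apply Subtype.ext
      show Orb B x y = Orb B x' y'
      rw [key x y u v h, key x' y' u v h']
  · push Not at hfix
    rcases isEmpty_or_nonempty V with hV | ⟨⟨x₀⟩⟩
    · refine Dec.congr ?_ (Dec.empty (G := G))
      intro u
      exact (IsEmpty.false u).elim
    let f : B → V := fun b => (b : Equiv.Perm V) x₀
    have hf : Function.Bijective f := by
      constructor
      · intro b c hbc
        by_contra hne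
        have h1 : (b : Equiv.Perm V) x₀ = (c : Equiv.Perm V) x₀ := hbc
        refine hfix ((c : Equiv.Perm V)⁻¹ * b) (B.mul_mem (B.inv_mem c.2) b.2) ?_ x₀ ?_
        · intro h
          exact hne (Subtype.ext (inv_mul_eq_one.1 h).symm)
        · rw [Equiv.Perm.mul_apply, h1, pinv]
      · intro y
        obtain ⟨b, hb, h⟩ := htr x₀ y
        exact ⟨⟨b, hb⟩, h⟩
    let e : B ≃ V := Equiv.ofBijective f hf
    have he : ∀ b : B, e b = (b : Equiv.Perm V) x₀ := fun b => rfl
    have hmul : ∀ b s : B, e (b * s) = (b : Equiv.Perm V) (e s) := fun b s => rfl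
    have : Fintype B := Fintype.ofFinite B
    let S : Finset B := univ.filter (fun s => G.Adj x₀ (e s))
    have hmem : ∀ s, s ∈ S ↔ G.Adj x₀ (e s) := fun s => by simp [S]
    have hadj : ∀ s ∈ S, ∀ b, G.Adj (e b) (e (b * s)) := by
      intro s hs b
      rw [hmul, he]
      exact hB b b.2 _ _ ((hmem s).1 hs)
    have hS : ∀ s ∈ S, s⁻¹ ∈ S := by
      intro s hs
      rw [hmem]
      have h1 := hB (s⁻¹ : B) (s⁻¹ : B).2 _ _ ((hmem s).1 hs)
      have h2 : ((s⁻¹ : B) : Equiv.Perm V) (e s) = x₀ := by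
        rw [← hmul, inv_mul_cancel, he]
        rfl
      rw [h2] at h1
      exact h1.symm
    have hcard : S.card ≠ 1 := by
      intro h
      obtain ⟨s, hs⟩ := card_eq_one.1 h
      have h1 : G.Adj x₀ (e s) := (hmem s).1 (by rw [hs]; exact mem_singleton_self s)
      obtain ⟨z, hz, hz'⟩ := hdeg x₀ (e s) h1
      have h2 : e.symm z ∈ S := (hmem _).2 (by rw [e.apply_symm_apply]; exact hz')
      rw [hs, mem_singleton] at h2
      exact hz (by rw [← h2, e.apply_symm_apply])
    refine Dec.congr ?_ (dec_cayley e S hadj hS hcard)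
    intro u v
    constructor
    · rintro ⟨b, s, hs, rfl, rfl⟩
      exact hadj s hs b
    · intro h
      refine ⟨e.symm u, (e.symm u)⁻¹ * e.symm v, ?_, e.apply_symm_apply u, ?_⟩
      · rw [hmem, hmul]
        have h1 := hB ((e.symm u)⁻¹ : B) ((e.symm u)⁻¹ : B).2 _ _ h
        have h2 : (((e.symm u)⁻¹ : B) : Equiv.Perm V) u = x₀ := by
          have h4 : ∀ b : B, ((b⁻¹ : B) : Equiv.Perm V) (e b) = x₀ := by
            intro b
            rw [← hmul, inv_mul_cancel, he]
            rfl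
          have := h4 (e.symm u)
          rwa [e.apply_symm_apply] at this
        rw [h2] at h1
        have h3 : e (e.symm v) = v := e.apply_symm_apply v
        rw [h3]
        exact h1
      · rw [mul_inv_cancel_left, e.apply_symm_apply]

end Transitive

end Pool.Agent.U133.OC
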